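import Pool.Agent.W5h12.QP.Low

set_option autoImplicit false

/-!
# Every `k`-matching-planar graph is `f(k)`-quasi-planar

Outline. By sampling vertices, a `k`-matching-planar topological graph contains many edges no two
disjoint ones of which cross; such a graph has no `K₅` minor and few edges. Hence every
`k`-matching-planar graph is `d`-degenerate with `d = 112 k + 56`. The edges of a `d`-degenerate
graph split into `d` forests in which every vertex has at most one earlier neighbour. The forests
can be drawn simultaneously, on the same points of the horizontal axis, by curves monotone in the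
first coordinate, so that no two edges of the same forest cross. Of any `d + 1` edges two belong to
the same forest.
-/

namespace Pool.Agent.Results.MP_09efc9_co.MatchingPlanarQuasi

open Pool.Agent.W5h12.QP

theorem result : ∃ f : ℕ → ℕ, (∀ k, 1 ≤ f k ∧ f k ≤ 112 * k + 57) ∧
    ∀ (k : ℕ) (V : Type) [Finite V] (G : SimpleGraph V),
      IsMatchingPlanar G k → IsQuasiPlanar G (f k) :=
  ⟨fun k => 112 * k + 57, fun k => ⟨by show 1 ≤ 112 * k + 57; omega, le_rfl⟩, fun k _ _ G h => main G k h⟩

end Pool.Agent.Results.MP_09efc9_co.MatchingPlanarQuasi
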